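import Mathlib
import Pool.Agent.X51.ThrSep

namespace Pool.Agent.Results.MP_922b49_co.UncountablyMany

/-- `G` is a `(-1,1,t)`-threshold graph: there are real ranks such that distinct `v`, `w` are
adjacent iff `r v + r w ∈ [-1,1) ∪ [t,∞)`. -/
def IsThreshold {V : Type*} (t : ℝ) (G : SimpleGraph V) : Prop :=
  ∃ r : V → ℝ, ∀ v w : V, v ≠ w →
    (G.Adj v w ↔ (-1 ≤ r v + r w ∧ r v + r w < 1) ∨ t ≤ r v + r w)

/-- The class `C_t`, as the set of all `(-1,1,t)`-threshold graphs with vertex set `Fin n` for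
some `n` (every finite graph is isomorphic to such a graph). -/
def C (t : ℝ) : Set (Σ n : ℕ, SimpleGraph (Fin n)) := {G | IsThreshold t G.2}

/-- MP_922b49_co, Q1 (yes): the set `{C_t : t > 1}` is uncountable. -/
theorem result : ¬ (C '' Set.Ioi 1).Countable := by
  have key : ∀ t t' : ℝ, 1 < t → t < t' → C t ≠ C t' := by
    intro t t' ht htt h
    obtain ⟨N, G, h1, h2⟩ := Pool.Agent.X51.Thr.sep_raw ht htt
    have h3 : (⟨N, G⟩ : Σ n : ℕ, SimpleGraph (Fin n)) ∈ C t' := h1
    rw [← h] at h3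
    exact h2 h3
  have hinj : Set.InjOn C (Set.Ioi (1 : ℝ)) := by
    intro t ht t' ht' h
    by_contra hne
    rcases lt_or_gt_of_ne hne with h1 | h1
    · exact key t t' ht h1 h
    · exact key t' t ht' h1 h.symm
  intro hc
  have h1 : (Set.Ioi (1 : ℝ)).Countable := Set.countable_of_injective_of_countable_image hinj hc
  have h2 := Cardinal.mk_Ioi_real (1 : ℝ)
  have h3 := Set.Countable.le_aleph0 h1
  rw [h2] at h3
  exact absurd h3 (not_le.2 Cardinal.aleph0_lt_continuum)

end Pool.Agent.Results.MP_922b49_co.UncountablyMany
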